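import Pool.Agent.EMC.Win.Main

namespace Pool.Agent.Results.MP_1aab60_co.FixedR

/-- For every `r ≥ 4` there is `n0` such that for all `n ≥ n0` and all `k ≥ 1` with `rk - 1 ≤ n` the
Erdős matching conjecture holds: the largest number of `r`-subsets of an `n`-set with no `k`
pairwise disjoint members is `max (C(rk-1,r), C(n,r) - C(n-k+1,r))`. -/
theorem result :
    ∀ r : ℕ, 4 ≤ r → ∃ n0 : ℕ, ∀ n k : ℕ, n0 ≤ n → 1 ≤ k → r * k - 1 ≤ n →
      (∀ F : Finset (Finset (Fin n)),
          (∀ e ∈ F, e.card = r) →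
          (¬ ∃ M : Finset (Finset (Fin n)), M ⊆ F ∧ M.card = k ∧
              ∀ a ∈ M, ∀ b ∈ M, a ≠ b → Disjoint a b) →
          F.card ≤ max (Nat.choose (r * k - 1) r)
                       (Nat.choose n r - Nat.choose (n - k + 1) r)) ∧
      (∃ F : Finset (Finset (Fin n)),
          (∀ e ∈ F, e.card = r) ∧
          (¬ ∃ M : Finset (Finset (Fin n)), M ⊆ F ∧ M.card = k ∧
              ∀ a ∈ M, ∀ b ∈ M, a ≠ b → Disjoint a b) ∧
          F.card = max (Nat.choose (r * k - 1) r)
                       (Nat.choose n r - Nat.choose (n - k + 1) r)) :=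
  Pool.Agent.EMC.emc_fixed Pool.Agent.EMC.win_nat

end Pool.Agent.Results.MP_1aab60_co.FixedR
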