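import Pool.Agent.EMC.All.Final

namespace Pool.Agent.Results.MP_1aab60_co.LargeK

/-- For every `ep > 0` there is `k0` such that for all `k ≥ k0`, all `r ≥ 1` and all
`n ≥ (1 + ep) (r + 1) k` the Erdős matching conjecture holds: the largest number of `r`-subsets of
an `n`-set with no `k` pairwise disjoint members is `max (C(rk-1,r), C(n,r) - C(n-k+1,r))`, and
this maximum is `C(n,r) - C(n-k+1,r)`. -/
theorem result :
    ∀ ep : ℝ, 0 < ep → ∃ k0 : ℕ, ∀ r k n : ℕ, 1 ≤ r → k0 ≤ k →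
      (1 + ep) * (((r : ℝ) + 1) * k) ≤ n →
      (∀ F : Finset (Finset (Fin n)),
          (∀ e ∈ F, e.card = r) →
          (¬ ∃ M : Finset (Finset (Fin n)), M ⊆ F ∧ M.card = k ∧
              ∀ a ∈ M, ∀ b ∈ M, a ≠ b → Disjoint a b) →
          F.card ≤ max (Nat.choose (r * k - 1) r)
                       (Nat.choose n r - Nat.choose (n - k + 1) r)) ∧
      (∃ F : Finset (Finset (Fin n)),
          (∀ e ∈ F, e.card = r) ∧
          (¬ ∃ M : Finset (Finset (Fin n)), M ⊆ F ∧ M.card = k ∧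
              ∀ a ∈ M, ∀ b ∈ M, a ≠ b → Disjoint a b) ∧
          F.card = max (Nat.choose (r * k - 1) r)
                       (Nat.choose n r - Nat.choose (n - k + 1) r)) ∧
      Nat.choose (r * k - 1) r ≤ Nat.choose n r - Nat.choose (n - k + 1) r := by
  intro ep h0
  obtain ⟨k0, hk0⟩ := Pool.Agent.EMC.emc_all Pool.Agent.EMC.main_all h0
  refine ⟨k0, fun r k n hr hk hn => ?_⟩
  obtain ⟨h1, h2, h3⟩ := hk0 r k n hk hr hn
  rw [max_eq_right h1]
  exact ⟨h2, h3, h1⟩

end Pool.Agent.Results.MP_1aab60_co.LargeK
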