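import Pool.Agent.EMC.Main2

namespace Pool.Agent.Results.MP_1aab60_co.LargeR

/-- For every `ep > 0` there is `r0` such that for all `r ≥ r0`, all `k ≥ 1` and all
`n ≥ (4/3 + ep) k r` the Erdős matching conjecture holds: the largest number of `r`-subsets of an
`n`-set with no `k` pairwise disjoint members is `max (C(rk-1,r), C(n,r) - C(n-k+1,r))`, and this
maximum is `C(n,r) - C(n-k+1,r)`. -/
theorem result :
    ∀ ep : ℝ, 0 < ep → ∃ r0 : ℕ, ∀ r k n : ℕ, r0 ≤ r → 1 ≤ k →
      (4 / 3 + ep) * (k * r) ≤ n →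
      (∀ F : Finset (Finset (Fin n)),
          (∀ e ∈ F, e.card = r) →
          (¬ ∃ M : Finset (Finset (Fin n)), M ⊆ F ∧ M.card = k ∧
              ∀ a ∈ M, ∀ b ∈ M, a ≠ b → Disjoint a b) →
          F.card ≤ max (Nat.choose (r * k - 1) r)
                       (Nat.choose n r - Nat.choose (n - k + 1) r)) ∧
      (∃ F : Finset (Finset (Fin n)),
          (∀ e ∈ F, e.card = r) ∧
          (¬ ∃ M : Finset (Finset (Fin n)), M ⊆ F ∧ M.card = k ∧
              ∀ a ∈ M, ∀ b ∈ M, a ≠ b → Disjoint a b) ∧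
          F.card = max (Nat.choose (r * k - 1) r)
                       (Nat.choose n r - Nat.choose (n - k + 1) r)) ∧
      Nat.choose (r * k - 1) r ≤ Nat.choose n r - Nat.choose (n - k + 1) r := by
  intro ep h0
  obtain ⟨r0, hr0⟩ := Pool.Agent.EMC.emc_main2 h0
  refine ⟨r0, fun r k n hr hk hn => ?_⟩
  obtain ⟨h1, h2, h3⟩ := hr0 r k n hk hr hn
  rw [max_eq_right h1]
  exact ⟨h2, h3, h1⟩

end Pool.Agent.Results.MP_1aab60_co.LargeR
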